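import Pool.Agent.Results.MP_a60953_an.InfiniteOrderCounterexample

/-!
# Polynomial counterexamples to a variant of the Hopf lemma, with strict comparison

For `1 ≤ r ≤ m = n - 1`, `k ≥ 5` and `0 < c ≤ 1 / (k (k-1))²` the polynomials
`u = t ρ + c t^k` and `v = t (ρ + ρ²) / 2 + c (t / 3)^k`, where `ρ = y_1² + ... + y_r²`, satisfy the
conditions 1-4 of the problem, with `v < u` in `Ω` and with a strict inequality in the comparison
condition, and `u_t(0, y) = ρ(y)`: so `u_t(0, ·)` vanishes on a linear subspace of codimension `r`,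
for `r = 1` on a whole hyperplane.
-/

set_option autoImplicit false

namespace Pool.Agent.Results.MP_a60953_an.PolynomialStrict

open Set
open Pool.Agent.Results.MP_a60953_an.InfiniteOrderCounterexample (Y dt dy lap Om Admissible
  InfiniteOrder)
open Pool.Agent.H507R3.Hopf (mf mf_contDiff dt_mf lap_mf key_ineq)

/-- `ρ(y) = y_1² + ... + y_r²`, the sum of the squares of the first `r` coordinates. -/
noncomputable def rho {m : ℕ} (r : ℕ) (y : Y m) : ℝ :=
  ∑ i : Fin m, if (i : ℕ) < r then y i ^ 2 else 0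

/-- `u = t ρ + c t^k`. -/
noncomputable def polyU (m r k : ℕ) (c : ℝ) (p : ℝ × Y m) : ℝ :=
  p.1 * rho r p.2 + c * p.1 ^ k

/-- `v = t (ρ + ρ²) / 2 + c (t / 3)^k`. -/
noncomputable def polyV (m r k : ℕ) (c : ℝ) (p : ℝ × Y m) : ℝ :=
  p.1 * (rho r p.2 + rho r p.2 ^ 2) / 2 + c * (p.1 / 3) ^ k

/-! ### The projection to the first `r` coordinates -/

section projection

variable {m r : ℕ} (h : r ≤ m)

/-- the first `r` coordinates -/
noncomputable def pr (y : Y m) : Y r := WithLp.toLp 2 (fun i => y (Fin.castLE h i))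

lemma norm_pr_sq (y : Y m) : ‖pr h y‖ ^ 2 = rho r y := by
  rw [EuclideanSpace.norm_sq_eq, rho]
  refine Fintype.sum_of_injective (Fin.castLE h) (Fin.castLE_injective h) _ _ ?_ ?_
  · intro i hi
    rw [if_neg]
    intro hlt
    exact hi ⟨⟨i, hlt⟩, rfl⟩
  · intro i
    have : ((Fin.castLE h i : Fin m) : ℕ) < r := i.2
    rw [if_pos this]
    simp [pr]

lemma rho_nonneg (y : Y m) : 0 ≤ rho r y := by
  rw [rho]
  exact Finset.sum_nonneg fun i _ => by split_ifs <;> positivity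

lemma rho_le (y : Y m) : rho r y ≤ ‖y‖ ^ 2 := by
  rw [EuclideanSpace.norm_sq_eq, rho]
  refine Finset.sum_le_sum fun i _ => ?_
  split_ifs
  · simp
  · positivity

lemma norm_pr_lt {y : Y m} (hy : ‖y‖ < 1) : ‖pr h y‖ < 1 := by
  have h1 : ‖pr h y‖ ^ 2 ≤ ‖y‖ ^ 2 := by rw [norm_pr_sq]; exact rho_le y
  exact (abs_le_of_sq_le_sq' h1 (norm_nonneg y)).2.trans_lt hy

lemma pr_line (y : Y m) (j : Fin r) (s : ℝ) :
    pr h (y + s • EuclideanSpace.single (Fin.castLE h j) (1 : ℝ))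
      = pr h y + s • EuclideanSpace.single j (1 : ℝ) := by
  ext i
  simp only [pr, PiLp.add_apply, PiLp.smul_apply, PiLp.single_apply, smul_eq_mul,
    (Fin.castLE_injective h).eq_iff]

lemma pr_line' (y : Y m) (j : Fin m) (hj : j ∉ Set.range (Fin.castLE h)) (s : ℝ) :
    pr h (y + s • EuclideanSpace.single j (1 : ℝ)) = pr h y := by
  ext i
  have : Fin.castLE h i ≠ j := fun e => hj ⟨i, e⟩
  simp [pr, this]

/-- extension of a function of fewer variables -/
noncomputable def ext (w : ℝ × Y r → ℝ) : ℝ × Y m → ℝ := fun p => w (p.1, pr h p.2)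

lemma dt_ext (w : ℝ × Y r → ℝ) : dt (ext h w) = ext h (dt w) := rfl

lemma dy_ext (w : ℝ × Y r → ℝ) (j : Fin r) : dy (Fin.castLE h j) (ext h w) = ext h (dy j w) := by
  funext p
  simp only [dy, ext, pr_line]

lemma dy_ext' (w : ℝ × Y r → ℝ) (j : Fin m) (hj : j ∉ Set.range (Fin.castLE h)) :
    dy j (ext h w) = fun _ => 0 := by
  funext p
  simp only [dy, ext, pr_line' h _ j hj]
  exact deriv_const 0 _

lemma lap_ext (w : ℝ × Y r → ℝ) : lap (ext h w) = ext h (lap w) := by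
  funext p
  simp only [lap, dt_ext]
  have h1 : ∑ j : Fin m, dy j (dy j (ext h w)) p = ∑ j : Fin r, dy j (dy j w) (p.1, pr h p.2) := by
    symm
    refine Fintype.sum_of_injective (Fin.castLE h) (Fin.castLE_injective h) _ _ ?_ ?_
    · intro j hj
      rw [dy_ext' h w j hj]
      simp only [dy]
      exact deriv_const 0 _
    · intro j
      rw [dy_ext h w j, dy_ext h (dy j w) j]
      rfl
  rw [h1]
  rfl

lemma ext_contDiff {w : ℝ × Y r → ℝ} (hw : ContDiff ℝ (⊤ : ℕ∞) w) :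
    ContDiff ℝ (⊤ : ℕ∞) (ext h w) := by
  refine hw.comp (contDiff_fst.prodMk ?_)
  rw [contDiff_euclidean]
  intro i
  have : ContDiff ℝ (⊤ : ℕ∞) (fun y : Y m => y (Fin.castLE h i)) :=
    (contDiff_euclidean.1 contDiff_id) _
  exact this.comp contDiff_snd

end projection

/-! ### The model in dimension `r + 1` -/

section model

variable {r : ℕ} (j : ℕ) (c : ℝ)

lemma hasDeriv_e (t : ℝ) :
    HasDerivAt (fun t : ℝ => c * t ^ (j + 5)) (c * ((j + 5) * t ^ (j + 4))) t := by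
  have := (hasDerivAt_pow (j + 5) t).const_mul c
  simpa using this

lemma hasDeriv_e' (t : ℝ) :
    HasDerivAt (fun t : ℝ => c * ((j + 5) * t ^ (j + 4))) (c * ((j + 5) * ((j + 4) * t ^ (j + 3)))) t := by
  have := ((hasDerivAt_pow (j + 4) t).const_mul ((j : ℝ) + 5)).const_mul c
  simpa using this

lemma hasDeriv_e3 (t : ℝ) :
    HasDerivAt (fun t : ℝ => c * (t / 3) ^ (j + 5)) (c * ((j + 5) * (t / 3) ^ (j + 4)) / 3) t := by
  have h1 : HasDerivAt (fun t : ℝ => t / 3) (1 / 3) t := (hasDerivAt_id t).div_const 3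
  have := (h1.pow (j + 5)).const_mul c
  refine this.congr_deriv ?_
  simp
  ring

lemma hasDeriv_e3' (t : ℝ) :
    HasDerivAt (fun t : ℝ => c * ((j + 5) * (t / 3) ^ (j + 4)) / 3)
      (c * ((j + 5) * ((j + 4) * (t / 3) ^ (j + 3))) / 9) t := by
  have h1 : HasDerivAt (fun t : ℝ => t / 3) (1 / 3) t := (hasDerivAt_id t).div_const 3
  have := (((h1.pow (j + 4)).const_mul ((j : ℝ) + 5)).const_mul c).div_const 3
  refine this.congr_deriv ?_
  simp
  ring

/-- the comparison in the model is strict -/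
lemma model_comparison (hr : 1 ≤ r) (hc : 0 < c) (hcK : c * ((j + 5) * (j + 4)) ^ 2 ≤ 1)
    {t s : ℝ} {y : Y r} (ht : 0 < t) (hts : t ≤ s) (hs : s < 1)
    (heq : mf (m := r) 1 0 (fun t => c * t ^ (j + 5)) (t, y)
      = mf (1 / 2) (1 / 2) (fun t => c * (t / 3) ^ (j + 5)) (s, y)) :
    lap (mf (m := r) 1 0 (fun t => c * t ^ (j + 5))) (t, y)
      < lap (mf (1 / 2) (1 / 2) (fun t => c * (t / 3) ^ (j + 5))) (s, y) := by
  have hM : (1 : ℝ) ≤ r := by exact_mod_cast hr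
  have hs0 : 0 < s := lt_of_lt_of_le ht hts
  have ht1 : t < 1 := lt_of_le_of_lt hts hs
  have e1 : lap (mf (m := r) 1 0 (fun t => c * t ^ (j + 5))) (t, y)
      = t * (2 * r * 1 + 4 * (r + 2) * 0 * ‖y‖ ^ 2) + c * ((j + 5) * ((j + 4) * t ^ (j + 3))) :=
    lap_mf (m := r) 1 0 (hasDeriv_e j c) (hasDeriv_e' j c) (t, y)
  have e2 : lap (mf (m := r) (1 / 2) (1 / 2) (fun t => c * (t / 3) ^ (j + 5))) (s, y)
      = s * (2 * r * (1 / 2) + 4 * (r + 2) * (1 / 2) * ‖y‖ ^ 2)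
        + c * ((j + 5) * ((j + 4) * (s / 3) ^ (j + 3))) / 9 :=
    lap_mf (m := r) (1 / 2) (1 / 2) (hasDeriv_e3 j c) (hasDeriv_e3' j c) (s, y)
  rw [e1, e2]
  simp only [mf] at heq
  have hj0 : (0 : ℝ) ≤ j := Nat.cast_nonneg j
  set Kk : ℝ := ((j : ℝ) + 5) * (j + 4) with hKk
  have hK20 : 20 ≤ Kk := by rw [hKk]; nlinarith
  have hcK1 : c * Kk ≤ 1 / 20 := by
    have h1 : c * Kk * 20 ≤ c * Kk * Kk := by
      have : 0 ≤ c * Kk := by positivity
      nlinarith
    nlinarith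
  have key := key_ineq (e := fun t => c * t ^ (j + 5))
    (e'' := fun t => c * ((j + 5) * ((j + 4) * t ^ (j + 3)))) (M := r) (t := t) (s := s)
    (q := ‖y‖ ^ 2) hM ht hts hs (by positivity) ?_ ?_ ?_ ?_ ?_ ?_
  · have hpos : 0 < c * ((j + 5) * ((j + 4) * (s / 3) ^ (j + 3))) / 9 := by positivity
    nlinarith
  · intro a b ha _ hb _ hab
    have := pow_lt_pow_left₀ hab ha.le (n := j + 5) (by omega)
    nlinarith
  · positivity
  · intro h
    have h1 : s / 3 ≤ 20 / 27 * t := by linarith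
    have h2 : (s / 3) ^ (j + 5) ≤ (20 / 27 * t) ^ (j + 5) :=
      pow_le_pow_left₀ (by positivity) h1 _
    have h3 : ((20 : ℝ) / 27) ^ (j + 5) ≤ 1 / 2 := by
      calc ((20 : ℝ) / 27) ^ (j + 5) ≤ (20 / 27) ^ 3 :=
            pow_le_pow_of_le_one (by norm_num) (by norm_num) (by omega)
        _ ≤ 1 / 2 := by norm_num
    have h4 : (20 / 27 * t) ^ (j + 5) = (20 / 27) ^ (j + 5) * t ^ (j + 5) := mul_pow _ _ _
    have h5 : 0 < t ^ (j + 5) := by positivity
    have h6 : (s / 3) ^ (j + 5) ≤ 1 / 2 * t ^ (j + 5) := by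
      rw [h4] at h2
      nlinarith
    nlinarith
  · have h1 : (c * ((j + 5) * ((j + 4) * t ^ (j + 3)))) ^ 2
        = (c * Kk ^ 2) * c * (t ^ (j + 6) * t ^ j) := by rw [hKk]; ring
    have h2 : 20 * t * (c * t ^ (j + 5)) = 20 * c * t ^ (j + 6) := by ring
    rw [h1, h2]
    have h3 : t ^ j ≤ 1 := pow_le_one₀ ht.le ht1.le
    have h4 : 0 < t ^ (j + 6) := by positivity
    have h5 : 0 < t ^ j := by positivity
    calc (c * Kk ^ 2) * c * (t ^ (j + 6) * t ^ j) ≤ 1 * c * (t ^ (j + 6) * 1) := by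
          gcongr
      _ ≤ 20 * c * t ^ (j + 6) := by nlinarith [mul_pos hc h4]
  · have h1 : c * ((j + 5) * ((j + 4) * t ^ (j + 3))) = c * Kk * (t * t ^ (j + 2)) := by
      rw [hKk]; ring
    rw [h1]
    have h3 : t ^ (j + 2) ≤ 1 := pow_le_one₀ ht.le ht1.le
    have h5 : 0 < t ^ (j + 2) := by positivity
    calc c * Kk * (t * t ^ (j + 2)) ≤ 1 / 20 * (t * 1) := by gcongr
      _ ≤ t / 10 := by linarith
  · have h1 : c * (s / 3) ^ (j + 5) = c * (s / 3) ^ (j + 5) := rfl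
    nlinarith [heq]

end model

lemma polyU_eq {m r : ℕ} (h : r ≤ m) (k : ℕ) (c : ℝ) :
    polyU m r k c = ext h (mf (m := r) 1 0 (fun t => c * t ^ k)) := by
  funext p
  simp only [polyU, ext, mf, norm_pr_sq]
  ring

lemma polyV_eq {m r : ℕ} (h : r ≤ m) (k : ℕ) (c : ℝ) :
    polyV m r k c = ext h (mf (m := r) (1 / 2) (1 / 2) (fun t => c * (t / 3) ^ k)) := by
  funext p
  have : ‖pr h p.2‖ ^ 4 = (rho r p.2) ^ 2 := by rw [← norm_pr_sq h]; ring
  simp only [polyV, ext, mf, norm_pr_sq, this]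
  ring

/-- `u` and `v` are polynomials in the coordinates `t, y_1, ..., y_m`. -/
def IsPolynomial {m : ℕ} (w : ℝ × Y m → ℝ) : Prop :=
  ∃ P : MvPolynomial (Option (Fin m)) ℝ,
    ∀ p : ℝ × Y m, w p = MvPolynomial.eval (fun o : Option (Fin m) => o.elim p.1 (fun i => p.2 i)) P

lemma rho_poly {m : ℕ} (r : ℕ) : ∃ R : MvPolynomial (Option (Fin m)) ℝ, ∀ p : ℝ × Y m,
    rho r p.2 = MvPolynomial.eval (fun o : Option (Fin m) => o.elim p.1 (fun i => p.2 i)) R := by
  refine ⟨∑ i : Fin m, if (i : ℕ) < r then MvPolynomial.X (some i) ^ 2 else 0, fun p => ?_⟩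
  rw [rho, map_sum]
  refine Finset.sum_congr rfl fun i _ => ?_
  split_ifs <;> simp

lemma polyU_poly (m r k : ℕ) (c : ℝ) : IsPolynomial (polyU m r k c) := by
  obtain ⟨R, hR⟩ := rho_poly (m := m) r
  refine ⟨MvPolynomial.X none * R + MvPolynomial.C c * MvPolynomial.X none ^ k, fun p => ?_⟩
  simp [polyU, hR p]

lemma polyV_poly (m r k : ℕ) (c : ℝ) : IsPolynomial (polyV m r k c) := by
  obtain ⟨R, hR⟩ := rho_poly (m := m) r
  refine ⟨MvPolynomial.C (1 / 2) * (MvPolynomial.X none * (R + R ^ 2))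
    + MvPolynomial.C c * (MvPolynomial.C (1 / 3) * MvPolynomial.X none) ^ k, fun p => ?_⟩
  simp only [polyV, hR p, map_add, map_mul, map_pow, MvPolynomial.eval_C, MvPolynomial.eval_X,
    Option.elim_none]
  ring

/-- **Polynomial counterexamples with strict comparison.** Let `n = m + 1 ≥ 2`.
(1) For all `1 ≤ r ≤ m`, `k ≥ 5` and `0 < c ≤ 1 / (k (k - 1))²` the polynomials
`u = t ρ + c t^k` and `v = t (ρ + ρ²) / 2 + c (t / 3)^k`, `ρ = y_1² + ... + y_r²`, satisfy all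
hypotheses of the problem, with `v < u` at every point of `Ω` and with the strict inequality
`Δ u (t, y) < Δ v (s, y)` in the comparison condition; and `u_t(0, y) = ρ(y)`, so that `u_t(0, ·)`
vanishes exactly on the subspace `y_1 = ... = y_r = 0` (for `r = 1`: a hyperplane of `{t = 0}`).
(2) There are also `u, v` satisfying all hypotheses with `v < u` in `Ω` that vanish to infinite
order at `t = 0` on the axis `y = 0`. -/
theorem result (m : ℕ) (hm : 1 ≤ m) :
    (∀ r k : ℕ, ∀ c : ℝ, 1 ≤ r → r ≤ m → 5 ≤ k → 0 < c → c * ((k : ℝ) * (k - 1)) ^ 2 ≤ 1 →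
      Admissible m (polyU m r k c) (polyV m r k c) ∧
      IsPolynomial (polyU m r k c) ∧ IsPolynomial (polyV m r k c) ∧
      (∀ p ∈ Om m, polyV m r k c p < polyU m r k c p) ∧
      (∀ (t s : ℝ) (y : Y m), 0 < t → t ≤ s → s < 1 → ‖y‖ < 1 →
        polyU m r k c (t, y) = polyV m r k c (s, y) →
          lap (polyU m r k c) (t, y) < lap (polyV m r k c) (s, y)) ∧
      (∀ y : Y m, dt (polyU m r k c) (0, y) = rho r y) ∧
      (∀ y : Y m, rho r y = 0 ↔ ∀ i : Fin m, (i : ℕ) < r → y i = 0)) ∧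
    (∃ u v : ℝ × Y m → ℝ, Admissible m u v ∧ (∀ p ∈ Om m, v p < u p) ∧
      InfiniteOrder (fun t => u (t, 0)) ∧ InfiniteOrder (fun t => v (t, 0))) := by
  refine ⟨?_, Pool.Agent.Results.MP_a60953_an.InfiniteOrderCounterexample.result m hm⟩
  intro r k c hr hrm hk hc hcK
  obtain ⟨j, rfl⟩ : ∃ j, k = j + 5 := ⟨k - 5, by omega⟩
  have hcK' : c * (((j : ℝ) + 5) * (j + 4)) ^ 2 ≤ 1 := by
    have e : ((((j + 5 : ℕ) : ℝ)) * (((j + 5 : ℕ) : ℝ) - 1)) = ((j : ℝ) + 5) * (j + 4) := by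
      push_cast; ring
    rw [e] at hcK
    exact hcK
  have hdt : ∀ p : ℝ × Y m, dt (polyU m r (j + 5) c) p
      = rho r p.2 + c * ((j + 5) * p.1 ^ (j + 4)) := by
    intro p
    rw [polyU_eq hrm, dt_ext]
    have e : dt (mf (m := r) 1 0 (fun t => c * t ^ (j + 5)))
        = fun p => 1 * ‖p.2‖ ^ 2 + 0 * ‖p.2‖ ^ 4 + c * ((j + 5) * p.1 ^ (j + 4)) :=
      dt_mf (m := r) 1 0 (hasDeriv_e j c)
    rw [e]
    simp only [ext, norm_pr_sq]
    ring
  have hlt : ∀ p ∈ Om m, polyV m r (j + 5) c p < polyU m r (j + 5) c p := by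
    rintro ⟨t, y⟩ ⟨h1, h2, h3⟩
    simp only at h1 h2 h3
    simp only [polyU, polyV]
    have h4 : 0 ≤ rho r y := rho_nonneg y
    have h5 : rho r y ≤ 1 := (rho_le y).trans (by nlinarith [norm_nonneg y])
    have h6 : (t / 3) ^ (j + 5) < t ^ (j + 5) :=
      pow_lt_pow_left₀ (by linarith) (by positivity) (by omega)
    have h7 : rho r y ^ 2 ≤ rho r y := by nlinarith
    nlinarith [mul_nonneg h2.le (sub_nonneg.mpr h7)]
  have hcomp : ∀ (t s : ℝ) (y : Y m), 0 < t → t ≤ s → s < 1 → ‖y‖ < 1 →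
      polyU m r (j + 5) c (t, y) = polyV m r (j + 5) c (s, y) →
        lap (polyU m r (j + 5) c) (t, y) < lap (polyV m r (j + 5) c) (s, y) := by
    intro t s y ht hts hs _ heq
    rw [polyU_eq hrm, polyV_eq hrm] at heq
    rw [polyU_eq hrm, polyV_eq hrm, lap_ext, lap_ext]
    exact model_comparison j c hr hc hcK' ht hts hs heq
  refine ⟨⟨?_, ?_, fun p hp => (hlt p hp).le, ?_, ?_, ?_, ?_, fun t s y h1 h2 h3 h4 h5 =>
    (hcomp t s y h1 h2 h3 h4 h5).le, ?_⟩, polyU_poly _ _ _ _, polyV_poly _ _ _ _, hlt, hcomp,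
    ?_, ?_⟩
  · rw [polyU_eq hrm]
    exact ext_contDiff hrm (mf_contDiff _ _ (by fun_prop))
  · rw [polyV_eq hrm]
    exact ext_contDiff hrm (mf_contDiff _ _ (by fun_prop))
  · rintro ⟨t, y⟩ ⟨h1, h2, h3⟩
    simp only at h1 h2 h3
    simp only [polyU]
    have h4 : 0 ≤ rho r y := rho_nonneg y
    positivity
  · rintro ⟨t, y⟩ ⟨h1, h2, h3⟩
    simp only at h1 h2 h3
    simp only [polyV]
    have h4 : 0 ≤ rho r y := rho_nonneg y
    positivity
  · rintro ⟨t, y⟩ ⟨h1, h2, h3⟩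
    simp only at h1 h2 h3
    rw [hdt]
    have h4 : 0 ≤ rho r y := rho_nonneg y
    simp only
    positivity
  · intro y _
    simp [polyU]
  · rw [hdt]
    simp [rho]
  · intro y
    rw [hdt]
    simp
  · intro y
    rw [rho, Finset.sum_eq_zero_iff_of_nonneg (fun i _ => by split_ifs <;> positivity)]
    constructor
    · intro h i hi
      have := h i (Finset.mem_univ i)
      rw [if_pos hi] at this
      exact pow_eq_zero_iff (by norm_num) |>.1 this
    · intro h i _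
      split_ifs with hi
      · rw [h i hi]; norm_num
      · rfl

end Pool.Agent.Results.MP_a60953_an.PolynomialStrict
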